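import Mathlib

set_option autoImplicit false

namespace Pool.Agent.Results.MP_18aa7e_al.Free

/-- the six generators `a, b, c, d, e, f` are numbered `0, 1, 2, 3, 4, 5` -/
def x (i : Fin 6) : FreeGroup (Fin 6) := FreeGroup.of i

/-- pairs of generators indexed by disjoint pairs -/
def far : List (Fin 6 × Fin 6) := [(0, 5), (1, 4), (2, 3)]

/-- the triples `(u, v, w)` with relation `uvw = wvu` -/
def tri : List (Fin 6 × Fin 6 × Fin 6) :=
  [(0, 1, 3), (1, 0, 3), (0, 3, 1), (0, 2, 4), (2, 0, 4), (0, 4, 2),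
    (1, 2, 5), (2, 1, 5), (1, 5, 2), (3, 4, 5), (4, 3, 5), (3, 5, 4)]

def rels : Set (FreeGroup (Fin 6)) :=
  {r | (∃ i, r = x i * x i) ∨ (∃ p ∈ far, r = x p.1 * x p.2 * (x p.2 * x p.1)⁻¹) ∨
    ∃ t ∈ tri, r = x t.1 * x t.2.1 * x t.2.2 * (x t.2.2 * x t.2.1 * x t.1)⁻¹}

/-- the Manturov group -/
abbrev G : Type := PresentedGroup rels

abbrev F := FreeGroup (Fin 2)
abbrev X := (Bool × Bool × Bool) × F

def cf : Bool → Bool → F
  | true, false => FreeGroup.of 0
  | false, true => FreeGroup.of 1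
  | _, _ => 1

def fa (z : X) : X :=
  ((z.1.1, z.1.2.1, !z.1.2.2), (if z.1.2.2 then (cf z.1.1 z.1.2.1)⁻¹ else cf z.1.1 z.1.2.1) * z.2)
def fb (z : X) : X := ((!z.1.1, z.1.2), z.2)
def fc (z : X) : X := ((z.1.1, !z.1.2.1, z.1.2.2), z.2)

lemma ia : Function.Involutive fa := by
  rintro ⟨⟨u, v, w⟩, g⟩
  cases w <;> simp [fa]
lemma ib : Function.Involutive fb := by
  rintro ⟨⟨u, v, w⟩, g⟩
  simp [fb]
lemma ic : Function.Involutive fc := by
  rintro ⟨⟨u, v, w⟩, g⟩
  simp [fc]

def A : Equiv.Perm X := ia.toPerm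
def B : Equiv.Perm X := ib.toPerm
def C : Equiv.Perm X := ic.toPerm

lemma AA : A * A = 1 := Equiv.ext ia
lemma BB : B * B = 1 := Equiv.ext ib
lemma CC : C * C = 1 := Equiv.ext ic
lemma CB : C * B = B * C := Equiv.ext fun _ => rfl

def gen : Fin 6 → Equiv.Perm X := ![A, B, C, B, C, 1]

lemma rel_ok : ∀ r ∈ rels, FreeGroup.lift gen r = 1 := by
  rintro r (⟨i, rfl⟩ | ⟨p, hp, rfl⟩ | ⟨t, ht, rfl⟩)
  · simp only [x, map_mul, FreeGroup.lift_apply_of]
    fin_cases i <;> simp [gen, AA, BB, CC]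
  · simp only [x, map_mul, map_inv, FreeGroup.lift_apply_of, mul_inv_eq_one]
    simp only [far, List.mem_cons, List.not_mem_nil, or_false] at hp
    rcases hp with rfl | rfl | rfl <;> simp [gen, CB]
  · simp only [x, map_mul, map_inv, FreeGroup.lift_apply_of, mul_inv_eq_one]
    simp only [tri, List.mem_cons, List.not_mem_nil, or_false] at ht
    rcases ht with rfl | rfl | rfl | rfl | rfl | rfl | rfl | rfl | rfl | rfl | rfl | rfl <;>
      simp [gen, CB, BB, CC, mul_assoc]

def phi : G →* Equiv.Perm X := PresentedGroup.toGroup rel_ok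

def s (i : Fin 6) : G := PresentedGroup.of i

def el : Fin 2 → G := ![s 0 * s 1 * s 0 * s 1, s 0 * s 2 * s 0 * s 2]

def o : Bool × Bool × Bool := (false, false, false)

lemma key (i : Fin 2) (g : F) : phi (el i) (o, g) = (o, FreeGroup.of i * g) := by
  have h : ∀ j, phi (s j) = gen j := fun j => PresentedGroup.toGroup.of rel_ok
  fin_cases i
  · simp [el, h, gen, A, B, fa, fb, o, cf]
  · simp [el, h, gen, A, C, fa, fc, o, cf]

lemma key2 (w g : F) : phi (FreeGroup.lift el w) (o, g) = (o, w * g) := by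
  induction w using FreeGroup.induction_on generalizing g with
  | C1 => simp
  | of i => rw [FreeGroup.lift_apply_of]; exact key i g
  | inv_of i ih =>
    rw [map_inv, map_inv, Equiv.Perm.inv_eq_iff_eq, ih, mul_inv_cancel_left]
  | mul u v hu hv => rw [map_mul, map_mul, Equiv.Perm.mul_apply, hv, hu, mul_assoc]

theorem result : ∃ H : Subgroup G, Nonempty (FreeGroup (Fin 2) ≃* H) := by
  have inj : Function.Injective (FreeGroup.lift el) := by
    refine (injective_iff_map_eq_one _).2 fun w hw => ?_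
    have := key2 w 1
    rw [hw, map_one, mul_one] at this
    exact (congrArg Prod.snd this).symm
  exact ⟨_, ⟨MonoidHom.ofInjective inj⟩⟩

end Pool.Agent.Results.MP_18aa7e_al.Free
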